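import Pool.Agent.Q60.D3G.StmA
import Pool.Agent.Q180.WT.Main

/-! # Project D3G (helper60), JOB H5 CORE -/

set_option autoImplicit false
set_option linter.unusedSectionVars false

namespace Pool.Agent.Q274.D3G

open NumberField Module Pool.Agent.H204R3.CM Pool.Agent.Q60.D3G
open Pool.Agent.W547.KB (CMPair CMAV cc IsHalf Wt St mono trForm single Balanced ev evLin mono_apply)
open Pool.Agent.W547.LD (IsImag fld stab emb pairOf prodOf Orb orbWt tr mem_tr tr_one balanced_iff wt)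
open Pool.Agent.W547.LD.Comb (OrbT psum eps eps_cases)
open Pool.Agent.Q60.D3 (AV IsHom IsSimple IsCM IsIsogenousToProd)
open Pool.Agent.Q60.D3E (IsoCM)
open Pool.Agent.Q180.WT (Gen GC KO Mon Good)

/-- a sum over `Bool` -/
def bs {β : Bool → Type} : (β false ⊕ β true) ≃ Σ q, β q where
  toFun := Sum.elim (fun a => ⟨false, a⟩) (fun a => ⟨true, a⟩)
  invFun := fun s => match s with
    | ⟨false, a⟩ => Sum.inl a
    | ⟨true, a⟩ => Sum.inr a
  left_inv := by rintro (a | a) <;> rfl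
  right_inv := by rintro ⟨_ | _, a⟩ <;> rfl

section comb

variable {L : Type} [Field L] [NumberField L] [IsCMField L] [IsGalois ℚ L]

/-- if `1` is in all or in none of the elements of the orbit, the orbit has one element -/
theorem tr_eq_of (N : Subgroup (L ≃ₐ[ℚ] L)) (hN : IsImag N) (S : Set (L ≃ₐ[ℚ] L))
    (hS : IsHalf S) (h : (∀ τ ∈ N, τ ∈ S) ∨ (∀ τ ∈ N, τ ∉ S)) (τ : L ≃ₐ[ℚ] L) (hτ : τ ∈ N) :
    tr τ S = S := by
  have h1 : ∀ σ ∈ N, (σ * τ ∈ S ↔ σ ∈ S) := by
    intro σ hσ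
    rcases h with h | h
    · exact ⟨fun _ => h σ hσ, fun _ => h _ (N.mul_mem hσ hτ)⟩
    · exact ⟨fun h2 => absurd h2 (h _ (N.mul_mem hσ hτ)), fun h2 => absurd h2 (h σ hσ)⟩
  ext σ
  rw [mem_tr]
  by_cases hσ : σ ∈ N
  · exact h1 σ hσ
  · have h2 := h1 (cc L * σ) (hN.2 σ hσ)
    rw [mul_assoc] at h2
    have h3 := hS (σ * τ)
    have h4 := hS σ
    tauto

open Classical in
theorem eps_int (S : Set (L ≃ₐ[ℚ] L)) (σ : L ≃ₐ[ℚ] L) :
    eps S σ = ((if σ ∈ S then 1 else -1 : ℤ) : ℚ) := by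
  unfold eps
  split_ifs <;> simp

open Classical in
/-- the weight of an orbit with three elements -/
theorem s_three (N : Subgroup (L ≃ₐ[ℚ] L)) (hN : IsImag N) (S : Set (L ≃ₐ[ℚ] L))
    (hS : IsHalf S) {i0 : Fintype (OrbT N S)} (hc' : Nat.card (OrbT N S) = 3) (s : ℤ)
    (hs : (s : ℚ) = psum N S 1) : s = 1 ∨ s = -1 := by
  have hc : Fintype.card (OrbT N S) = 3 := by rw [← Nat.card_eq_fintype_card, hc']
  have e := Fintype.equivFinOfCardEq hc
  have h1 : s = ∑ i : Fin 3, (if (1 : L ≃ₐ[ℚ] L) ∈ (e.symm i).1 then (1 : ℤ) else -1) := by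
    have h2 : (s : ℚ) = ((∑ i : Fin 3, (if (1 : L ≃ₐ[ℚ] L) ∈ (e.symm i).1 then (1 : ℤ) else -1) : ℤ) : ℚ) := by
      rw [hs, Int.cast_sum]
      unfold psum
      refine Fintype.sum_equiv e _ _ fun T => ?_
      rw [Equiv.symm_apply_apply, eps_int]
    exact_mod_cast h2
  have key : ¬ ((∀ i, (1 : L ≃ₐ[ℚ] L) ∈ (e.symm i).1) ∨ (∀ i, (1 : L ≃ₐ[ℚ] L) ∉ (e.symm i).1)) := by
    intro h
    have h3 : ∀ τ (hτ : τ ∈ N), tr τ S = S := by
      refine tr_eq_of N hN S hS ?_
      rcases h with h | h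
      · left
        intro τ hτ
        have h4 := h (e ⟨tr τ S, τ, hτ, rfl⟩)
        rw [Equiv.symm_apply_apply] at h4
        change (1 : L ≃ₐ[ℚ] L) ∈ tr τ S at h4
        rwa [mem_tr, one_mul] at h4
      · right
        intro τ hτ
        have h4 := h (e ⟨tr τ S, τ, hτ, rfl⟩)
        rw [Equiv.symm_apply_apply] at h4
        change (1 : L ≃ₐ[ℚ] L) ∉ tr τ S at h4
        rwa [mem_tr, one_mul] at h4
    have h5 : Subsingleton (OrbT N S) := by
      refine ⟨?_⟩
      rintro ⟨T, τ, hτ, hT⟩ ⟨T', τ', hτ', hT'⟩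
      refine Subtype.ext ?_
      change T = T'
      rw [← hT, ← hT']
      exact (h3 τ hτ).trans (h3 τ' hτ').symm
    have h6 := Fintype.card_le_one_iff_subsingleton.2 h5
    omega
  rw [Fin.sum_univ_three] at h1
  simp only [Fin.forall_fin_succ, IsEmpty.forall_iff, and_true] at key
  revert h1 key
  have e0 : (Fin.succ 0 : Fin 3) = 1 := rfl
  have e1 : (Fin.succ (Fin.succ 0) : Fin 3) = 2 := rfl
  by_cases a0 : (1 : L ≃ₐ[ℚ] L) ∈ (e.symm 0).1 <;> by_cases a1 : (1 : L ≃ₐ[ℚ] L) ∈ (e.symm 1).1 <;>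
    by_cases a2 : (1 : L ≃ₐ[ℚ] L) ∈ (e.symm 2).1 <;> simp [a0, a1, a2] <;> intro h <;> omega

theorem sum_zero (N : Subgroup (L ≃ₐ[ℚ] L)) (x : Bool → Set (L ≃ₐ[ℚ] L)) [Fintype (Orb N x)]
    [DecidableEq (Orb N x)] {i2 : Fintype (OrbT N (x false))} {i3 : Fintype (OrbT N (x true))}
    (hbal : Balanced (fun k : Orb N x => k.2.1)) :
    psum N (x false) 1 + psum N (x true) 1 = 0 := by
  have h := (balanced_iff _).1 hbal 1
  let i0 : Fintype {S : Set (L ≃ₐ[ℚ] L) // ∃ τ ∈ N, tr τ (x false) = S} :=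
    (inferInstance : Fintype (OrbT N (x false)))
  let i1 : Fintype {S : Set (L ≃ₐ[ℚ] L) // ∃ τ ∈ N, tr τ (x true) = S} :=
    (inferInstance : Fintype (OrbT N (x true)))
  rw [← Equiv.sum_comp (bs (β := fun q => {S : Set (L ≃ₐ[ℚ] L) // ∃ τ ∈ N, tr τ (x q) = S})),
    Fintype.sum_sum_type] at h
  exact h

end comb

section main

variable {L : Type} [Field L] [NumberField L] [IsCMField L] [IsGalois ℚ L] (j : L →+* ℂ)
  (N : Subgroup (L ≃ₐ[ℚ] L)) (x : Bool → Set (L ≃ₐ[ℚ] L)) (hx : ∀ q, IsHalf (x q))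

/-- the projection to a factor -/
noncomputable def pr (q : Bool) : (av (prodOf j x hx)).H →ₗ[ℚ] (av (single (pairOf j (x q) (hx q)))).H where
  toFun w := fun _ => (show (prodOf j x hx).H1 from w) q
  map_add' _ _ := rfl
  map_smul' _ _ := rfl

theorem isHom_pr (q : Bool) : IsHom (av (prodOf j x hx)) (av (single (pairOf j (x q) (hx q))))
    (pr j x hx q) := by
  refine ⟨{ toFun := fun t => fun _ φ => (show (prodOf j x hx).Tan from t) q φ
            map_add' := fun _ _ => rfl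
            map_smul' := fun _ _ => rfl }, fun w => rfl⟩

/-- the coordinates -/
noncomputable def lk (k : Orb N x) : (av (prodOf j x hx)).H →ₗ[ℚ] ℂ where
  toFun w := j (ev (show (prodOf j x hx).H1 from w) (orbWt j N x hx k))
  map_add' v w := by
    have h := (evLin (orbWt j N x hx k)).map_add v w
    exact (congrArg j h).trans (map_add j _ _)
  map_smul' a w := by
    have h := (evLin (orbWt j N x hx k)).map_smul a w
    exact (congrArg j h).trans (map_rat_smul j a _)

end main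

theorem core (h1 : S_root) (h2 : S_lap) (h3 : S_trc) (h4 : S_cko) : S_core := by
  intro 𝒟 h𝒟 L _ _ _ _ j N x hx _ _ hN hst hcard hbal α
  obtain ⟨δ, d, hd, hδ, hfix⟩ := h1 L j N hN
  have e : ∀ q, Fin (Nat.card (OrbT N (x q))) ≃ OrbT N (x q) := fun q =>
    (Finite.equivFin _).symm
  choose K hKd hKμ hKs hKδ using fun q => h4 L j N hN δ d hd hδ hfix (x q) (hx q) (hst q)
    (Nat.card (OrbT N (x q))) (e q)
  have hsum : (K false).s + (K true).s = 0 := by
    have h5 := hKs false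
    have h6 := hKs true
    have h8 : (((K false).s + (K true).s : ℤ) : ℚ) = 0 := by
      push_cast
      rw [h5, h6]
      exact sum_zero N x hbal
    exact_mod_cast h8
  have hD : ∀ q, Nat.card (OrbT N (x q)) ≠ 1 → (K q).s ≠ 0 ∧
      ∃ r ∈ 𝒟, Nat.card (OrbT N (x q)) + (K q).s.natAbs = 2 * r := by
    intro q hq
    have h5 := (hcard q).resolve_left hq
    have h6 : (K q).s = 1 ∨ (K q).s = -1 := s_three N hN (x q) (hx q) h5 (K q).s (hKs q)
    refine ⟨by omega, 2, h𝒟, ?_⟩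
    have h7 : (K q).s.natAbs = 1 := by
      rcases h6 with h6 | h6 <;> rw [h6] <;> rfl
    omega
  -- the equivalence
  let E : (Σ i : Fin 2, Fin (Nat.card (OrbT N (x (finTwoEquiv i))))) ≃ Orb N x :=
    (Equiv.sigmaCongrRight fun i => e (finTwoEquiv i)).trans
      (Equiv.sigmaCongrLeft (β := fun q => {S : Set (L ≃ₐ[ℚ] L) // ∃ τ ∈ N, tr τ (x q) = S})
        finTwoEquiv)
  let E' : Fin (Nat.card (OrbT N (x false))) ⊕ Fin (Nat.card (OrbT N (x true))) ≃ Orb N x :=
    (Equiv.sumCongr (e false) (e true)).trans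
      (bs (β := fun q => {S : Set (L ≃ₐ[ℚ] L) // ∃ τ ∈ N, tr τ (x q) = S}))
  let M : Mon 𝒟 (av (prodOf j x hx)) (Orb N x) :=
    { m := 2
      n := fun i => Nat.card (OrbT N (x (finTwoEquiv i)))
      A := fun i => av (single (pairOf j (x (finTwoEquiv i)) (hx (finTwoEquiv i))))
      D := fun i => K (finTwoEquiv i)
      hD := fun i => hD (finTwoEquiv i)
      h := fun i _ => pr j x hx (finTwoEquiv i)
      hh := fun i _ => isHom_pr j x hx (finTwoEquiv i)
      p := 0
      β := fun q => q.elim0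
      hβ := fun q => q.elim0
      e := (Equiv.sumEmpty _ _).trans E }
  have hM : M.Balanced := by
    intro d'
    change ∑ i : Fin 2, (if (K (finTwoEquiv i)).d = d' then (K (finTwoEquiv i)).s else 0) = 0
    rw [Fin.sum_univ_two]
    change (if (K false).d = d' then (K false).s else 0) +
      (if (K true).d = d' then (K true).s else 0) = 0
    rw [hKd, hKd]
    split_ifs
    · exact hsum
    · rfl
  let F : MultilinearMap ℚ (fun _ : Orb N x => (av (prodOf j x hx)).H) ℂ :=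
    (Pool.Agent.Q60.D3.mulF ((K false).δ.toMultilinearMap.compLinearMap fun _ => pr j x hx false)
      ((K true).δ.toMultilinearMap.compLinearMap fun _ => pr j x hx true)).domDomCongr E'
  have hFv : ∀ v, F v = (K false).δ (fun a => pr j x hx false (v ⟨false, e false a⟩)) *
      (K true).δ (fun a => pr j x hx true (v ⟨true, e true a⟩)) := fun v => rfl
  have hgood : Good 𝒟 (av (prodOf j x hx)) (Orb N x) F := by
    refine Pool.Agent.Q180.WT.bal 𝒟 _ _ M hM F fun v => ?_
    rw [hFv]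
    unfold Mon.val
    change _ = (∏ i : Fin 2, (K (finTwoEquiv i)).δ fun k => pr j x hx (finTwoEquiv i) (v (E ⟨i, k⟩))) *
      ∏ q : Fin 0, _
    rw [Fin.prod_univ_two, Finset.univ_eq_empty, Finset.prod_empty, mul_one]
    rfl
  let G : MultilinearMap ℚ (fun _ : Orb N x => (av (prodOf j x hx)).H) ℂ :=
    (MultilinearMap.mkPiAlgebra ℚ (Orb N x) ℂ).compLinearMap (lk j N x hx)
  have hGv : ∀ v, G v = ∏ k, lk j N x hx k (v k) := fun v => by
    change (MultilinearMap.mkPiAlgebra ℚ (Orb N x) ℂ) (fun k => lk j N x hx k (v k)) = _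
    rw [MultilinearMap.mkPiAlgebra_apply]
  have hlap := h2 (av (prodOf j x hx)).H (Orb N x) 2
    (fun i => Nat.card (OrbT N (x (finTwoEquiv i)))) E (lk j N x hx) F G (fun v => by
      rw [hFv, Fin.prod_univ_two]
      exact congrArg₂ (· * ·) (hKδ false _) (hKδ true _)) hGv
  have hc : (((∏ i : Fin 2, (Nat.card (OrbT N (x (finTwoEquiv i)))).factorial : ℕ)) : ℂ) ≠ 0 := by
    rw [Nat.cast_ne_zero]
    exact Finset.prod_ne_zero_iff.2 fun i _ => Nat.factorial_ne_zero _
  have hmem : MultilinearMap.alternatization G ∈ GC 𝒟 (av (prodOf j x hx)) (Orb N x) := by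
    have h5 : MultilinearMap.alternatization F ∈ GC 𝒟 (av (prodOf j x hx)) (Orb N x) := hgood
    rw [hlap] at h5
    have h6 := Submodule.smul_mem _
      (((∏ i : Fin 2, (Nat.card (OrbT N (x (finTwoEquiv i)))).factorial : ℕ) : ℂ)⁻¹) h5
    rwa [smul_smul, inv_mul_cancel₀ hc, one_smul] at h6
  have hA : ∀ v : Orb N x → (av (prodOf j x hx)).H, MultilinearMap.alternatization G v =
      ∑ σ : Equiv.Perm (Orb N x), ((Equiv.Perm.sign σ : ℤ) : ℂ) * ∏ k, lk j N x hx k (v (σ k)) := by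
    intro v
    rw [MultilinearMap.alternatization_apply]
    refine Finset.sum_congr rfl fun σ _ => ?_
    rw [Units.smul_def, zsmul_eq_mul, MultilinearMap.domDomCongr_apply, hGv]
  refine h3 𝒟 (prodOf j x hx) L j (Orb N x) (orbWt j N x hx) (MultilinearMap.alternatization G)
    (fun v => ?_) hmem α
  refine (hA v).trans ?_
  rw [mono_apply, map_sum]
  refine Finset.sum_congr rfl fun σ _ => ?_
  rw [map_mul, map_intCast, map_prod]
  rfl

end Pool.Agent.Q274.D3G
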