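import Pool.Agent.Q60.D3G.StmA

/-! # Project D3G (helper60), JOB H1 ROOT -/

set_option autoImplicit false

namespace Pool.Agent.Q274.D3G

open NumberField Module Pool.Agent.H204R3.CM Pool.Agent.Q60.D3G
open Pool.Agent.W547.LD (IsImag exists_sqrt)

theorem root : S_root := by
  intro L _ _ _ _ j N hN
  obtain ⟨δ, d, hd, hδ, hfix⟩ := exists_sqrt j hN
  obtain ⟨a, b, hab, ha⟩ := Nat.sq_mul_squarefree d
  have hb : b ≠ 0 := by
    rintro rfl
    simp at hab
    omega
  have hbL : (b : L) ≠ 0 := Nat.cast_ne_zero.2 hb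
  refine ⟨δ / b, a, ha, ?_, fun τ hτ => ?_⟩
  · rw [div_mul_div_comm, hδ, ← hab]
    push_cast
    field_simp
  · rw [map_div₀, hfix τ hτ, map_natCast]

end Pool.Agent.Q274.D3G
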